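import Pool.Agent.Lib.HUK.Defs

/-!
# Project HPC: systems of polynomials in one parameter, power saving. Definitions

Paper proof: `PROOF.md`. All functions live on `ZMod M`; a direction is a law `p` on `ZMod M`. `DD` is the difference
operator `f(y) conj f(y + h)` of `HUK/Defs` (rules in `HUK/P0`).
-/

open Finset Polynomial

namespace Pool.Agent.HPC

open Pool.Agent.HUK (DD Bdd GG)

noncomputable section

/-- Bounded by `1`, at most `N` non-zero values. -/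
structure FN {M : ℕ} (N : ℕ) (f : ZMod M → ℂ) : Prop where
  le : ∀ y, ‖f y‖ ≤ 1
  card : ∃ S : Finset (ZMod M), S.card ≤ N ∧ ∀ y, y ∉ S → f y = 0

/-- The difference operator `f(y + a) conj f(y + b)`. -/
def D2 {M : ℕ} (a b : ZMod M) (f : ZMod M → ℂ) : ZMod M → ℂ := fun y => f (y + a) * (starRingEnd ℂ) (f (y + b))

/-- A law (probability weight) on `ZMod M`. -/
structure Law {M : ℕ} [NeZero M] (p : ZMod M → ℝ) : Prop where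
  nn : ∀ a, 0 ≤ p a
  sum : ∑ a, p a = 1

/-- The box norm of `f` in the directions of the list, absolute values inside. -/
def NN {M : ℕ} [NeZero M] : List (ZMod M → ℝ) → (ZMod M → ℂ) → ℝ
  | [], f => ‖∑ y, f y‖
  | p :: L, f => ∑ a, ∑ b, p a * p b * NN L (D2 a b f)

/-- The law of the difference `a - b`, `a` with law `p`, `b` with law `q`. -/
def df {M : ℕ} [NeZero M] (p q : ZMod M → ℝ) : ZMod M → ℝ := fun u => ∑ b, p (b + u) * q b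

/-- The Fourier transform of a law. -/
def ftw {M : ℕ} [NeZero M] (p : ZMod M → ℝ) (x : ZMod M) : ℂ := ∑ a, (p a : ℂ) * ZMod.stdAddChar (x * a)

/-- The energy (collision probability) of a law. -/
def en {M : ℕ} [NeZero M] (p : ZMod M → ℝ) : ℝ := ∑ a, p a ^ 2

/-- `GZ s` is the power `2^(s+1)` of the unnormalised `U^(s+1)` norm. -/
def GZ {M : ℕ} [NeZero M] : ℕ → (ZMod M → ℂ) → ℝ
  | 0, f => ‖∑ y, f y‖ ^ 2
  | s + 1, f => ∑ u, GZ s (DD u f)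

/-- The mean of a real function over a finite type. -/
def av {I : Type} [Fintype I] (F : I → ℝ) : ℝ := (∑ i, F i) / Fintype.card I

/-- The parameters `h : Fin r → (-Y, Y)`. -/
abbrev Bx (r Y : ℕ) : Type := Fin r → {m : ℤ // m ∈ Ioo (-(Y : ℤ)) Y}

/-- The values of the parameters. -/
def vl {r Y : ℕ} (h : Bx r Y) : Fin r → ℤ := fun i => (h i).1

/-- The direction `c (-Y, Y)`. -/
def dl {M : ℕ} [NeZero M] (Y : ℕ) (c : ℤ) : ZMod M → ℝ :=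
  fun a => (((Ioo (-(Y : ℤ)) Y).filter fun m => ((c * m : ℤ) : ZMod M) = a).card : ℝ) / (2 * Y - 1)

/-- The functions `K_d` of the energy: `K_d(x) = E χ(x k_1 .. k_d)`, `k_i` differences of two elements of `(-Y, Y)`.
Here `KK 0` is `K_1`. -/
def KK {M : ℕ} [NeZero M] (Y : ℕ) : ℕ → ZMod M → ℝ
  | 0, x => ‖(∑ m ∈ Ioo (-(Y : ℤ)) Y, (ZMod.stdAddChar (x * ((m : ℤ) : ZMod M)) : ℂ)) / (2 * Y - 1)‖ ^ 2
  | d + 1, x => (∑ m ∈ Ioo (-(Y : ℤ)) Y, ∑ m' ∈ Ioo (-(Y : ℤ)) Y, KK Y d (x * ((m - m' : ℤ) : ZMod M))) / (2 * Y - 1) ^ 2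

/-! ## Interfaces -/

/-- **Module A (concatenation).** `p` directions depending on `i : I`; every direction becomes a combination of `2^ν`
independent ones. -/
def CONC (p ν : ℕ) : Prop := ∃ (E n : ℕ) (C : ℝ), 1 ≤ E ∧ 1 ≤ C ∧ ∀ (I : Type) (_ : Fintype I) (_ : Nonempty I),
  ∃ (J : Type) (_ : Fintype J) (_ : Nonempty J), ∀ (M : ℕ) (_ : NeZero M) (α : I → Fin p → ZMod M → ℝ),
  (∀ i l, Law (α i l)) → ∃ δ : J → Fin n → ZMod M → ℝ, (∀ j k, Law (δ j k)) ∧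
  (∀ (N : ℕ) (f : ZMod M → ℂ), 1 ≤ N → FN N f →
    (av (fun i => NN (List.ofFn (α i)) f) / N) ^ E ≤ av (fun j => NN (List.ofFn (δ j)) f) / N) ∧
  ∀ (x : ZMod M) (B : ℝ), (∀ l, av (fun i => ‖ftw (α i l) x‖ ^ 2) ≤ B) →
    ∀ k, av (fun j => ‖ftw (δ j k) x‖ ^ 2) ≤ C * B ^ 2 ^ ν

/-- The polynomials `R j` of degree at most `D` with coefficients `r j` of `x^D`. -/
def RD {q : ℕ} (D : ℕ) (r : Fin q → ℤ) (R : Fin q → ℤ[X]) : Prop := ∀ j, (R j).natDegree ≤ D ∧ (R j).coeff D = r j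

/-- The sum `∑_t ∑_{n ∈ [a, b)} f_0(t) ∏ f_j(t + R_j(n))`. -/
def SP {M : ℕ} [NeZero M] {q : ℕ} (R : Fin q → ℤ[X]) (a b : ℤ) (f0 : ZMod M → ℂ) (f : Fin q → ZMod M → ℂ) : ℂ :=
  ∑ t, ∑ n ∈ Ico a b, f0 t * ∏ j, f j (t + (((R j).eval n : ℤ) : ZMod M))

/-- **Module B (elimination).** -/
def PETT (D q : ℕ) (r : Fin q → ℤ) : Prop := ∃ (E ρ n : ℕ) (C : ℝ) (c : (Fin ρ → ℤ) → Fin n → ℤ) (κ : Fin n → ℤ),
  1 ≤ E ∧ 1 ≤ C ∧ (∀ k, κ k ≠ 0) ∧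
  (∀ (Y M : ℕ) (_ : NeZero M) (x : ZMod M) (k : Fin n), 1 ≤ Y →
    av (fun h : Bx ρ Y => KK Y 0 (x * ((c (vl h) k : ℤ) : ZMod M))) ≤
      (KK Y (D - 1) (x * ((κ k : ℤ) : ZMod M))) ^ ((1 : ℝ) / 2 ^ (D - 1))) ∧
  ∀ (X M N : ℕ) (_ : NeZero M) (R : Fin q → ℤ[X]) (a b : ℤ) (f0 : ZMod M → ℂ) (f : Fin q → ZMod M → ℂ), 1 ≤ X → 1 ≤ N →
    RD D r R → 0 ≤ a → b ≤ X → FN N f0 → (∀ j, FN N (f j)) →
    (‖SP R a b f0 f‖ / (N * X)) ^ E ≤ C * av (fun h : Bx ρ (2 * X) => NN (List.ofFn fun k => dl (2 * X) (c (vl h) k)) f0) / N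

/-- **Theorem P modulo `M`.** -/
def ThmP (D q : ℕ) (r : Fin q → ℤ) : Prop := ∃ s C0 : ℕ, ∀ Cz κ : ℝ, 1 ≤ Cz → 0 < κ → ∃ δ : ℝ, 0 < δ ∧ ∃ X0 : ℕ,
  ∀ (X M : ℕ) (_ : NeZero M) (R : Fin q → ℤ[X]) (a b : ℤ) (f0 : ZMod M → ℂ) (f : Fin q → ZMod M → ℂ) (N : ℕ),
    X0 ≤ X → C0 * X ^ D ≤ M → RD D r R → 0 ≤ a → b ≤ X → (N : ℝ) ≤ Cz * (X : ℝ) ^ D → FN N f0 → (∀ j, FN N (f j)) →
    GZ s f0 ≤ (X : ℝ) ^ (D * (s + 2 : ℝ) - κ) → ‖SP R a b f0 f‖ ≤ (X : ℝ) ^ (D + 1 - δ)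

/-- **Theorem P over the integers** (the form used in modules F and G). -/
def ThmPZ (D q : ℕ) (r : Fin q → ℤ) : Prop := ∃ s : ℕ, 2 ≤ s ∧ ∀ (C0 : ℕ) (κ : ℝ), 0 < κ → ∃ δ : ℝ, 0 < δ ∧
  ∃ X0 : ℕ, ∀ X : ℕ, X0 ≤ X → ∀ R : Fin q → ℤ[X], RD D r R → ∀ n0 L : ℕ, n0 + L ≤ C0 * X →
  ∀ (f0 : ℤ → ℂ) (f : Fin q → ℤ → ℂ) (S : Fin q → Finset ℤ), Bdd (C0 * X ^ D) f0 → (∀ j y, ‖f j y‖ ≤ 1) →
  (∀ j, (S j).card ≤ C0 * X ^ D) → (∀ j y, y ∉ S j → f j y = 0) →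
  GG (C0 * X ^ D) s f0 ≤ (X : ℝ) ^ ((D : ℝ) * (s + 1) - κ) →
  ‖∑ t ∈ Ico (-((C0 * X ^ D : ℕ) : ℤ)) ((C0 * X ^ D : ℕ) : ℤ), ∑ n ∈ Ico n0 (n0 + L),
    f0 t * ∏ j, f j (t + (R j).eval (n : ℤ))‖ ≤ (X : ℝ) ^ ((D : ℝ) + 1 - δ)

end

end Pool.Agent.HPC
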