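import Pool.Agent.Lib.HPC.Defs
import Pool.Agent.Lib.HUK.P0

/-!
# HPC, module C, chunk C1: calculus of the box norms `NN` and of `GZ`; `NN L f ^ 2 ≤ ∏ en · GZ`

`NN_sq`: induction on `L`. `NN (p :: L) f = ∑_{a,b} p a p b NN L (D2 a b f)`, `D2 a b f` is the translate by `a` of
`DD (b - a) f`, so `NN (p :: L) f = ∑_u ρ(u) NN L (DD u f)` with `ρ(u) = ∑_a p a p (a + u) ≤ en p` (Cauchy-Schwarz),
`∑ ρ = 1`, `∑ ρ² ≤ en p`; Cauchy-Schwarz.
-/

open Finset

namespace Pool.Agent.HPC

open Pool.Agent.HUK (DD)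

noncomputable section

variable {M : ℕ} [NeZero M]

theorem FN_mono {N N' : ℕ} (h : N ≤ N') {f : ZMod M → ℂ} (hf : FN N f) : FN N' f := by
  obtain ⟨S, hS, h0⟩ := hf.card
  exact ⟨hf.le, S, hS.trans h, h0⟩

theorem FN_D2 {N : ℕ} {f : ZMod M → ℂ} (hf : FN N f) (a b : ZMod M) : FN N (D2 a b f) := by
  obtain ⟨S, hS, h0⟩ := hf.card
  refine ⟨fun y => ?_, S.image fun y => y - a, (Finset.card_image_le).trans hS, fun y hy => ?_⟩
  · unfold D2
    rw [norm_mul, RCLike.norm_conj]
    exact mul_le_one₀ (hf.le _) (norm_nonneg _) (hf.le _)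
  · have h1 : y + a ∉ S := by
      intro h2
      exact hy (Finset.mem_image.mpr ⟨y + a, h2, by ring⟩)
    unfold D2
    rw [h0 _ h1, zero_mul]

theorem NN_nn (L : List (ZMod M → ℝ)) (hL : ∀ p ∈ L, Law p) (f : ZMod M → ℂ) : 0 ≤ NN L f := by
  induction L generalizing f with
  | nil => exact norm_nonneg _
  | cons p L ih =>
    have hp : Law p := hL p (by simp)
    change 0 ≤ ∑ a, ∑ b, p a * p b * NN L (D2 a b f)
    refine Finset.sum_nonneg fun a _ => Finset.sum_nonneg fun b _ => ?_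
    exact mul_nonneg (mul_nonneg (hp.nn a) (hp.nn b)) (ih (fun q hq => hL q (List.mem_cons_of_mem _ hq)) _)

theorem NN_shift (L : List (ZMod M → ℝ)) (f : ZMod M → ℂ) (c : ZMod M) : NN L (fun y => f (y + c)) = NN L f := by
  induction L generalizing f with
  | nil =>
    change ‖∑ y, f (y + c)‖ = ‖∑ y, f y‖
    rw [← Equiv.sum_comp (Equiv.addRight c) f]
    rfl
  | cons p L ih =>
    change ∑ a, ∑ b, p a * p b * NN L (D2 a b (fun y => f (y + c))) = ∑ a, ∑ b, p a * p b * NN L (D2 a b f)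
    refine Finset.sum_congr rfl fun a _ => Finset.sum_congr rfl fun b _ => ?_
    have h1 : D2 a b (fun y => f (y + c)) = fun y => D2 a b f (y + c) := by
      funext y
      simp only [D2, add_right_comm]
    rw [h1, ih]

theorem NN_le {N : ℕ} (L : List (ZMod M → ℝ)) (hL : ∀ p ∈ L, Law p) {f : ZMod M → ℂ} (hf : FN N f) : NN L f ≤ N := by
  induction L generalizing f with
  | nil =>
    obtain ⟨S, hS, h0⟩ := hf.card
    change ‖∑ y, f y‖ ≤ N
    rw [← Finset.sum_subset (Finset.subset_univ S) (fun y _ hy => h0 y hy)]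
    refine (norm_sum_le _ _).trans ?_
    refine (Finset.sum_le_card_nsmul _ _ 1 fun y _ => hf.le y).trans ?_
    rw [nsmul_eq_mul, mul_one]
    exact_mod_cast hS
  | cons p L ih =>
    have hp : Law p := hL p (by simp)
    change ∑ a, ∑ b, p a * p b * NN L (D2 a b f) ≤ N
    have h1 : ∀ a b, p a * p b * NN L (D2 a b f) ≤ p a * p b * N := fun a b =>
      mul_le_mul_of_nonneg_left (ih (fun q hq => hL q (List.mem_cons_of_mem _ hq)) (FN_D2 hf a b))
        (mul_nonneg (hp.nn a) (hp.nn b))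
    refine (Finset.sum_le_sum fun a _ => Finset.sum_le_sum fun b _ => h1 a b).trans ?_
    have h2 : ∑ a, ∑ b, p a * p b * (N : ℝ) = N := by
      simp only [← Finset.sum_mul, ← Finset.mul_sum, hp.sum, mul_one, one_mul]
    exact h2.le

theorem GZ_nn (s : ℕ) (f : ZMod M → ℂ) : 0 ≤ GZ s f := by
  induction s generalizing f with
  | zero => exact sq_nonneg _
  | succ s ih =>
    change 0 ≤ ∑ u, GZ s (DD u f)
    exact Finset.sum_nonneg fun u _ => ih _

theorem en_nn (p : ZMod M → ℝ) : 0 ≤ en p := by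
  unfold en
  exact Finset.sum_nonneg fun a _ => sq_nonneg _

theorem c1_law_le_one {p : ZMod M → ℝ} (hp : Law p) (a : ZMod M) : p a ≤ 1 := by
  rw [← hp.sum]
  exact Finset.single_le_sum (fun b _ => hp.nn b) (Finset.mem_univ a)

theorem en_le_one {p : ZMod M → ℝ} (hp : Law p) : en p ≤ 1 := by
  unfold en
  refine (Finset.sum_le_sum fun a _ => ?_).trans hp.sum.le
  have h1 := hp.nn a
  have h2 := c1_law_le_one hp a
  nlinarith

/-- The law of the difference. -/
def c1_rho (p : ZMod M → ℝ) (u : ZMod M) : ℝ := ∑ a, p a * p (a + u)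

theorem c1_rho_nn {p : ZMod M → ℝ} (hp : Law p) (u : ZMod M) : 0 ≤ c1_rho p u := by
  unfold c1_rho
  exact Finset.sum_nonneg fun a _ => mul_nonneg (hp.nn _) (hp.nn _)

theorem c1_rho_le (p : ZMod M → ℝ) (u : ZMod M) : c1_rho p u ≤ en p := by
  unfold c1_rho en
  have h1 : ∑ a, p (a + u) ^ 2 = ∑ a, p a ^ 2 := by
    rw [← Equiv.sum_comp (Equiv.addRight u) fun a => p a ^ 2]
    rfl
  have h2 : ∑ a, p a * p (a + u) ≤ ∑ a, (p a ^ 2 + p (a + u) ^ 2) / 2 := by
    refine Finset.sum_le_sum fun a _ => ?_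
    nlinarith [sq_nonneg (p a - p (a + u))]
  refine h2.trans ?_
  rw [← Finset.sum_div, Finset.sum_add_distrib, h1]
  linarith

theorem c1_rho_sum {p : ZMod M → ℝ} (hp : Law p) : ∑ u, c1_rho p u = 1 := by
  unfold c1_rho
  rw [Finset.sum_comm]
  have h1 : ∀ a : ZMod M, ∑ u, p a * p (a + u) = p a := by
    intro a
    rw [← Finset.mul_sum]
    have h2 : ∑ u, p (a + u) = ∑ u, p u := by
      rw [← Equiv.sum_comp (Equiv.addLeft a) p]
      rfl
    rw [h2, hp.sum, mul_one]
  rw [Finset.sum_congr rfl fun a _ => h1 a, hp.sum]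

theorem c1_rho_sq {p : ZMod M → ℝ} (hp : Law p) : ∑ u, c1_rho p u ^ 2 ≤ en p := by
  have h1 : ∀ u, c1_rho p u ^ 2 ≤ en p * c1_rho p u := by
    intro u
    rw [sq]
    exact mul_le_mul_of_nonneg_right (c1_rho_le p u) (c1_rho_nn hp u)
  refine (Finset.sum_le_sum fun u _ => h1 u).trans ?_
  rw [← Finset.mul_sum, c1_rho_sum hp, mul_one]

theorem c1_NN_cons (p : ZMod M → ℝ) (L : List (ZMod M → ℝ)) (f : ZMod M → ℂ) :
    NN (p :: L) f = ∑ u, c1_rho p u * NN L (DD u f) := by
  change ∑ a, ∑ b, p a * p b * NN L (D2 a b f) = _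
  have h1 : ∀ a : ZMod M, ∑ b, p a * p b * NN L (D2 a b f) = ∑ u, p a * p (a + u) * NN L (DD u f) := by
    intro a
    rw [← Equiv.sum_comp (Equiv.addLeft a) fun b => p a * p b * NN L (D2 a b f)]
    refine Finset.sum_congr rfl fun u _ => ?_
    have h2 : D2 a (a + u) f = fun y => DD u f (y + a) := by
      funext y
      simp only [D2, DD, add_assoc]
    change p a * p (a + u) * NN L (D2 a (a + u) f) = _
    rw [h2, NN_shift]
  rw [Finset.sum_congr rfl fun a _ => h1 a, Finset.sum_comm]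
  refine Finset.sum_congr rfl fun u _ => ?_
  unfold c1_rho
  rw [Finset.sum_mul]

theorem NN_sq (L : List (ZMod M → ℝ)) (hL : ∀ p ∈ L, Law p) (f : ZMod M → ℂ) :
    NN L f ^ 2 ≤ (L.map en).prod * GZ L.length f := by
  induction L generalizing f with
  | nil =>
    rw [List.map_nil, List.prod_nil, one_mul]
    exact le_rfl
  | cons p L ih =>
    have hp : Law p := hL p (by simp)
    rw [c1_NN_cons]
    refine (Finset.sum_mul_sq_le_sq_mul_sq _ _ _).trans ?_
    have h1 : ∑ u, NN L (DD u f) ^ 2 ≤ (L.map en).prod * GZ (L.length + 1) f := by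
      change _ ≤ (L.map en).prod * ∑ u, GZ L.length (DD u f)
      rw [Finset.mul_sum]
      exact Finset.sum_le_sum fun u _ => ih (fun q hq => hL q (List.mem_cons_of_mem _ hq)) _
    rw [List.map_cons, List.prod_cons, List.length_cons, mul_assoc]
    exact mul_le_mul (c1_rho_sq hp) h1 (Finset.sum_nonneg fun u _ => sq_nonneg _) (en_nn p)

end

end Pool.Agent.HPC
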