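import Pool.Agent.Lib.HPC.Defs
import Pool.Agent.Lib.HUK.P1

/-!
# HPC, module C, chunk C10: `GG` over the integers and `GZ` modulo `M`

For `f` supported in `[-X, X)` and `8 X ≤ M`, the function `y ↦ f(rep y)` on `ZMod M` (`rep y = ZMod.valMinAbs y`) has
`GZ s = GG X (s + 1)`: `GG_succ`, `GG_one` (`HUK/P1`); for `u` with `|rep u| < 2 X` the differences correspond, for the other
`u` the difference is zero.
-/

open Finset

namespace Pool.Agent.HPC

open Pool.Agent.HUK (DD Bdd GG)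

noncomputable section

/-- A function on `ℤ` with values at the representatives of smallest absolute value. -/
def rd (M : ℕ) (f : ℤ → ℂ) : ZMod M → ℂ := fun y => f y.valMinAbs

theorem GZ_rd (X M : ℕ) [NeZero M] (hM : 8 * X + 8 ≤ M) (s : ℕ) (f : ℤ → ℂ)
    (hf : ∀ y, y ∉ Ico (-(X : ℤ)) X → f y = 0) : GZ s (rd M f) = GG X (s + 1) f := by
  sorry

/-- Monotonicity: induction on `s` with `GG_succ`, Cauchy-Schwarz in `k` (fewer than `4 X` values); `s = 1`:
`GG_one`. -/
theorem GG_mono (X s : ℕ) (hs : 1 ≤ s) (f : ℤ → ℂ) (hf : ∀ y, y ∉ Ico (-(X : ℤ)) X → f y = 0) :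
    GG X s f ^ 2 ≤ (4 * X : ℝ) ^ s * GG X (s + 1) f := by
  sorry

end

end Pool.Agent.HPC
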