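import Pool.Agent.Lib.HPC.C10

/-!
# HPC, module C, chunk C11: Theorem P over the integers from Theorem P modulo `M`

Choose `M` larger than `8 C0 X^D + 8`, than the constant of `ThmP` times `(C0 X)^D`, and than twice all `|t + R_j(n)|` and
all elements of the `S j`, plus one: then for `t`, `n` in the ranges `(t + R_j(n) : ZMod M)` has the representative
`t + R_j(n)` (`ZMod.valMinAbs`, as in `GZ_rd`). Use `ThmP` with `C0 X` for `X` and `Cz = 1` (if `C0 = 0` everything is zero),
with `s` of `ThmPZ` = (`s` of `ThmP`) `+ 2` and `GG_mono`. `κ` may be replaced by `min κ 1`.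
-/

open Finset Polynomial

namespace Pool.Agent.HPC

open Pool.Agent.HUK (DD Bdd GG)

noncomputable section

theorem C11_Z (D q : ℕ) (hD : 1 ≤ D) (r : Fin q → ℤ) (h : ThmP D q r) : ThmPZ D q r := by
  sorry

end

end Pool.Agent.HPC
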