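import Pool.Agent.Lib.HPC.C9
import Pool.Agent.Lib.HPC.C11
import Pool.Agent.Lib.HUP.Defs2

/-!
# HPC, module C, chunk C12: Theorem P in the form of `HUP/Defs2`
-/

open Finset Polynomial

namespace Pool.Agent.HPC

noncomputable section

theorem C12_thmP (hP : ∀ (D q : ℕ) (r : Fin q → ℤ), 1 ≤ D → (∀ j, r j ≠ 0) → PETT D q r) (hC : ∀ p ν : ℕ, CONC p ν) :
    Pool.Agent.HUP.ThmP := by
  sorry

end

end Pool.Agent.HPC
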