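import Pool.Agent.Lib.HPC.Defs

/-!
# HPC, module C, chunk C2: Fourier transforms of laws
-/

open Finset

namespace Pool.Agent.HPC

noncomputable section

variable {M : ℕ} [NeZero M]

/-- Parseval. -/
theorem en_ftw (p : ZMod M → ℝ) : en p = (∑ x, ‖ftw p x‖ ^ 2) / M := by
  sorry

theorem ftw_le {p : ZMod M → ℝ} (hp : Law p) (x : ZMod M) : ‖ftw p x‖ ≤ 1 := by
  sorry

theorem Law_dl (Y : ℕ) (hY : 1 ≤ Y) (c : ℤ) : Law (M := M) (dl Y c) := by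
  sorry

theorem ftw_dl (Y : ℕ) (hY : 1 ≤ Y) (c : ℤ) (x : ZMod M) :
    ‖ftw (dl Y c) x‖ ^ 2 = KK Y 0 (x * ((c : ℤ) : ZMod M)) := by
  sorry

end

end Pool.Agent.HPC
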