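import Pool.Agent.Lib.HPC.Defs

/-!
# HPC, module C, chunk C3: the law of `c k_1 ⋯ k_(d+1)`, its Fourier transform is `KK Y d (x c)`

`ftw_PL`: induction on `d`, all `c`; for `d = 0`, `‖∑_m χ(x c m)‖² = ∑_{m,m'} χ(x c (m - m'))`.
-/

open Finset

namespace Pool.Agent.HPC

noncomputable section

variable {M : ℕ} [NeZero M]

/-- The law of `c k_1 ⋯ k_(d+1)` modulo `M`, `k_i` independent differences of two elements of `(-Y, Y)`. -/
def PL (Y : ℕ) : ℕ → ℤ → ZMod M → ℝ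
  | 0, c => fun u => (∑ m ∈ Ioo (-(Y : ℤ)) Y, ∑ m' ∈ Ioo (-(Y : ℤ)) Y,
      if ((c * (m - m') : ℤ) : ZMod M) = u then (1 : ℝ) else 0) / (2 * Y - 1) ^ 2
  | d + 1, c => fun u => (∑ m ∈ Ioo (-(Y : ℤ)) Y, ∑ m' ∈ Ioo (-(Y : ℤ)) Y, PL Y d (c * (m - m')) u) / (2 * Y - 1) ^ 2

theorem c3_card (Y : ℕ) (hY : 1 ≤ Y) : ((Ioo (-(Y : ℤ)) Y).card : ℝ) = 2 * Y - 1 := by
  rw [Int.card_Ioo]
  have h1 : ((Y : ℤ) - -(Y : ℤ) - 1).toNat = 2 * Y - 1 := by omega
  rw [h1, Nat.cast_sub (by omega)]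
  push_cast
  ring

theorem c3_pos (Y : ℕ) (hY : 1 ≤ Y) : (0 : ℝ) < 2 * Y - 1 := by
  have h1 : (1 : ℝ) ≤ Y := by exact_mod_cast hY
  linarith

theorem c3_const (Y : ℕ) (hY : 1 ≤ Y) : (∑ _m ∈ Ioo (-(Y : ℤ)) Y, ∑ _m' ∈ Ioo (-(Y : ℤ)) Y, (1 : ℝ)) / (2 * Y - 1) ^ 2 = 1 := by
  rw [Finset.sum_const, Finset.sum_const, nsmul_eq_mul, nsmul_eq_mul, c3_card Y hY]
  have h1 := c3_pos Y hY
  field_simp

theorem Law_PL (Y : ℕ) (hY : 1 ≤ Y) (d : ℕ) (c : ℤ) : Law (M := M) (PL Y d c) := by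
  have hp := c3_pos Y hY
  induction d generalizing c with
  | zero =>
    constructor
    · intro a
      unfold PL
      refine div_nonneg (Finset.sum_nonneg fun m _ => Finset.sum_nonneg fun m' _ => ?_) (sq_nonneg _)
      split_ifs <;> norm_num
    · unfold PL
      rw [← Finset.sum_div, Finset.sum_comm]
      refine Eq.trans ?_ (c3_const Y hY)
      congr 1
      refine Finset.sum_congr rfl fun m _ => ?_
      rw [Finset.sum_comm]
      refine Finset.sum_congr rfl fun m' _ => ?_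
      rw [Finset.sum_ite_eq]
      simp
  | succ d ih =>
    constructor
    · intro a
      unfold PL
      exact div_nonneg (Finset.sum_nonneg fun m _ => Finset.sum_nonneg fun m' _ => (ih _).nn a) (sq_nonneg _)
    · unfold PL
      rw [← Finset.sum_div, Finset.sum_comm]
      refine Eq.trans ?_ (c3_const Y hY)
      congr 1
      refine Finset.sum_congr rfl fun m _ => ?_
      rw [Finset.sum_comm]
      exact Finset.sum_congr rfl fun m' _ => (ih _).sum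

theorem ftw_PL (Y : ℕ) (hY : 1 ≤ Y) (d : ℕ) (c : ℤ) (x : ZMod M) :
    ftw (PL Y d c) x = ((KK Y d (x * ((c : ℤ) : ZMod M)) : ℝ) : ℂ) := by
  induction d generalizing c with
  | zero =>
    unfold ftw PL KK
    have h1 : ∀ a : ZMod M, (((∑ m ∈ Ioo (-(Y : ℤ)) Y, ∑ m' ∈ Ioo (-(Y : ℤ)) Y,
        if ((c * (m - m') : ℤ) : ZMod M) = a then (1 : ℝ) else 0) / (2 * Y - 1) ^ 2 : ℝ) : ℂ) * ZMod.stdAddChar (x * a) =
        (∑ m ∈ Ioo (-(Y : ℤ)) Y, ∑ m' ∈ Ioo (-(Y : ℤ)) Y,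
        if ((c * (m - m') : ℤ) : ZMod M) = a then (ZMod.stdAddChar (x * a) : ℂ) else 0) / (2 * Y - 1) ^ 2 := by
      intro a
      push_cast
      rw [div_mul_eq_mul_div, Finset.sum_mul]
      congr 1
      refine Finset.sum_congr rfl fun m _ => ?_
      rw [Finset.sum_mul]
      refine Finset.sum_congr rfl fun m' _ => ?_
      split_ifs <;> simp
    rw [Finset.sum_congr rfl fun a _ => h1 a, ← Finset.sum_div, Finset.sum_comm]
    have h2 : ∀ m ∈ Ioo (-(Y : ℤ)) Y, (∑ a : ZMod M, ∑ m' ∈ Ioo (-(Y : ℤ)) Y,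
        if ((c * (m - m') : ℤ) : ZMod M) = a then (ZMod.stdAddChar (x * a) : ℂ) else 0) =
        ∑ m' ∈ Ioo (-(Y : ℤ)) Y, (ZMod.stdAddChar (x * ((c : ℤ) : ZMod M) * ((m : ℤ) : ZMod M)) : ℂ) *
          (starRingEnd ℂ) (ZMod.stdAddChar (x * ((c : ℤ) : ZMod M) * ((m' : ℤ) : ZMod M)) : ℂ) := by
      intro m _
      rw [Finset.sum_comm]
      refine Finset.sum_congr rfl fun m' _ => ?_
      rw [Finset.sum_ite_eq, if_pos (Finset.mem_univ _), ← AddChar.map_neg_eq_conj, ← AddChar.map_add_eq_mul]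
      congr 1
      push_cast
      ring
    rw [Finset.sum_congr rfl h2]
    have h3 : (((‖(∑ m ∈ Ioo (-(Y : ℤ)) Y, (ZMod.stdAddChar (x * ((c : ℤ) : ZMod M) * ((m : ℤ) : ZMod M)) : ℂ)) / (2 * Y - 1)‖ ^ 2 : ℝ)) : ℂ) =
        ((∑ m ∈ Ioo (-(Y : ℤ)) Y, (ZMod.stdAddChar (x * ((c : ℤ) : ZMod M) * ((m : ℤ) : ZMod M)) : ℂ)) / (2 * Y - 1)) *
        (starRingEnd ℂ) ((∑ m ∈ Ioo (-(Y : ℤ)) Y, (ZMod.stdAddChar (x * ((c : ℤ) : ZMod M) * ((m : ℤ) : ZMod M)) : ℂ)) / (2 * Y - 1)) := by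
      rw [Complex.mul_conj, Complex.normSq_eq_norm_sq]
    rw [h3, map_div₀, map_sum, div_mul_div_comm, Finset.sum_mul_sum]
    congr 1
    have h4 : (starRingEnd ℂ) (2 * (Y : ℂ) - 1) = 2 * (Y : ℂ) - 1 := by
      have h5 : (2 * (Y : ℂ) - 1) = ((2 * Y - 1 : ℝ) : ℂ) := by push_cast; ring
      rw [h5, Complex.conj_ofReal]
    rw [h4]
    ring
  | succ d ih =>
    unfold ftw PL KK
    have h1 : ∀ a : ZMod M, (((∑ m ∈ Ioo (-(Y : ℤ)) Y, ∑ m' ∈ Ioo (-(Y : ℤ)) Y, PL Y d (c * (m - m')) a) / (2 * Y - 1) ^ 2 : ℝ) : ℂ) *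
        ZMod.stdAddChar (x * a) =
        (∑ m ∈ Ioo (-(Y : ℤ)) Y, ∑ m' ∈ Ioo (-(Y : ℤ)) Y, (PL Y d (c * (m - m')) a : ℂ) * ZMod.stdAddChar (x * a)) / (2 * Y - 1) ^ 2 := by
      intro a
      push_cast
      rw [div_mul_eq_mul_div, Finset.sum_mul]
      congr 1
      refine Finset.sum_congr rfl fun m _ => ?_
      rw [Finset.sum_mul]
    rw [Finset.sum_congr rfl fun a _ => h1 a, ← Finset.sum_div, Finset.sum_comm]
    push_cast
    congr 1
    refine Finset.sum_congr rfl fun m _ => ?_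
    rw [Finset.sum_comm]
    refine Finset.sum_congr rfl fun m' _ => ?_
    have h2 := ih (c * (m - m'))
    unfold ftw at h2
    rw [h2]
    push_cast
    rw [mul_assoc]

theorem KK_nn (Y d : ℕ) (x : ZMod M) : 0 ≤ KK Y d x := by
  induction d generalizing x with
  | zero =>
    unfold KK
    positivity
  | succ d ih =>
    unfold KK
    exact div_nonneg (Finset.sum_nonneg fun m _ => Finset.sum_nonneg fun m' _ => ih _) (sq_nonneg _)

theorem KK_le (Y : ℕ) (hY : 1 ≤ Y) (d : ℕ) (x : ZMod M) : KK Y d x ≤ 1 := by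
  have hp := c3_pos Y hY
  induction d generalizing x with
  | zero =>
    unfold KK
    have h1 : ‖(∑ m ∈ Ioo (-(Y : ℤ)) Y, (ZMod.stdAddChar (x * ((m : ℤ) : ZMod M)) : ℂ)) / (2 * Y - 1)‖ ≤ 1 := by
      have h2 : (2 * (Y : ℂ) - 1) = ((2 * Y - 1 : ℝ) : ℂ) := by push_cast; ring
      rw [norm_div, h2, Complex.norm_real, Real.norm_eq_abs, abs_of_pos hp, div_le_one hp]
      refine (norm_sum_le _ _).trans ?_
      rw [← c3_card Y hY]
      have h3 : ∀ m ∈ Ioo (-(Y : ℤ)) Y, ‖(ZMod.stdAddChar (x * ((m : ℤ) : ZMod M)) : ℂ)‖ ≤ 1 := by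
        intro m _
        rw [AddChar.norm_apply]
      refine (Finset.sum_le_card_nsmul _ _ _ h3).trans ?_
      simp
    exact pow_le_one₀ (norm_nonneg _) h1
  | succ d ih =>
    unfold KK
    refine le_trans ?_ (c3_const Y hY).le
    refine div_le_div_of_nonneg_right ?_ (sq_nonneg _)
    exact Finset.sum_le_sum fun m _ => Finset.sum_le_sum fun m' _ => ih _

end

end Pool.Agent.HPC
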