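import Pool.Agent.Lib.HPC.Defs

/-!
# HPC, module C, chunk C4: moments of the Fourier transform of a law without large atoms off `0`

Convolution powers: `Q_1 = P`, `Q_(n+1)(u) = ∑_v P(v) Q_n(u - v)`; `ftw Q_n = (ftw P)^n`, `(∑_x ftw Q_n x) / M = Q_n(0)`;
by induction `Q_n(u) ≤ n p1` for `u ≠ 0` and `Q_n(0) ≤ p0^n + n p1`.
-/

open Finset

namespace Pool.Agent.HPC

noncomputable section

variable {M : ℕ} [NeZero M]

theorem conv_bound (P : ZMod M → ℝ) (hP : Law P) (K : ZMod M → ℝ) (hK : ∀ x, ftw P x = ((K x : ℝ) : ℂ)) (p0 p1 : ℝ)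
    (h0 : P 0 ≤ p0) (h01 : p0 ≤ 1) (hp1 : 0 ≤ p1) (h1 : ∀ u, u ≠ 0 → P u ≤ p1) (n : ℕ) (hn : 1 ≤ n) :
    (∑ x, K x ^ n) / M ≤ p0 ^ n + n * p1 := by
  sorry

end

end Pool.Agent.HPC
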