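import Pool.Agent.Lib.HPC.C3

/-!
# HPC, module C, chunk C5: atoms of the product laws

`PL_zero`: induction on `d`: `m = m'` has probability `1 / (2 Y - 1)`, else `c (m - m') ≠ 0`.
`PL_out`: the products are at most `|c| (2 Y)^(d+1)` in absolute value.
`PL_dvd`: induction on `d`: for a non-zero term `m - m'` divides `v` (a congruence modulo `M` between numbers of absolute
value `< M / 2` is an equality), so there are at most `2 τ(|v|)` values of `m - m'` and `2 Y - 1` values of `m'`.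
-/

open Finset

namespace Pool.Agent.HPC

noncomputable section

theorem PL_zero (M : ℕ) [NeZero M] (Y : ℕ) (hY : 1 ≤ Y) (d : ℕ) (c : ℤ) (hc : c ≠ 0)
    (hM : 2 * c.natAbs * (2 * Y) ^ (d + 1) < M) : PL Y d c (0 : ZMod M) ≤ (d + 1) / (2 * Y - 1) := by
  sorry

theorem PL_out (M : ℕ) [NeZero M] (Y : ℕ) (hY : 1 ≤ Y) (d : ℕ) (c v : ℤ) (hv : 2 * v.natAbs ≤ M)
    (hM : 2 * c.natAbs * (2 * Y) ^ (d + 1) < M) (h : c.natAbs * (2 * Y) ^ (d + 1) < v.natAbs) :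
    PL Y d c ((v : ℤ) : ZMod M) = 0 := by
  sorry

theorem PL_dvd (M : ℕ) [NeZero M] (Y : ℕ) (hY : 1 ≤ Y) (d : ℕ) (c v : ℤ) (hv0 : v ≠ 0) (hv : 2 * v.natAbs < M)
    (hM : 2 * c.natAbs * (2 * Y) ^ (d + 1) < M) :
    PL Y d c ((v : ℤ) : ZMod M) ≤ (2 * (v.natAbs.divisors.card : ℝ) / (2 * Y - 1)) ^ (d + 1) := by
  sorry

end

end Pool.Agent.HPC
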