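import Pool.Agent.Lib.HPC.C4
import Pool.Agent.Lib.HPC.C5
import Pool.Agent.Lib.H21AP.DivisorBound

/-!
# HPC, module C, chunk C6: the energy bound `(1/M) ∑_x K_D(κ x)^D ≤ C Y^(ε - D)`

`conv_bound` for `P = PL Y (D - 1) κ`, `p0 = min 1 (D / (2 Y - 1))`, `p1 = (2 τ / (2 Y - 1))^D` with the divisor bound
`τ ≤ C v^ε'` for `v ≤ |κ| (2 Y)^D`; every `u : ZMod M` is the cast of an integer `v` with `2 |v| ≤ M` (`ZMod.valMinAbs`);
if `|v|` is larger than `|κ| (2 Y)^D` the atom vanishes (`PL_out`), otherwise `2 |v| < M` and `PL_dvd`.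
A divisor bound is in the library (`divisor_bound` in `Lib/H21AP/DivisorBound.lean`).
-/

open Finset

namespace Pool.Agent.HPC

noncomputable section

theorem KK_energy (D : ℕ) (hD : 1 ≤ D) (κ : ℤ) (hκ : κ ≠ 0) (ε : ℝ) (hε : 0 < ε) : ∃ C : ℝ, 1 ≤ C ∧
    ∀ (Y M : ℕ) (_ : NeZero M), 1 ≤ Y → 2 * κ.natAbs * (2 * Y) ^ D < M →
    (∑ x : ZMod M, KK Y (D - 1) (x * ((κ : ℤ) : ZMod M)) ^ D) / M ≤ C * (Y : ℝ) ^ (ε - D) := by
  sorry

end

end Pool.Agent.HPC
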