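import Pool.Agent.Lib.HPC.C1
import Pool.Agent.Lib.HPC.C2
import Pool.Agent.Lib.HPC.C6

/-!
# HPC, module C, chunk C7: directions of small energy

From `PETT` and `CONC n (2 D - 1)` applied to `α h k = dl (2 X) (c (vl h) k)`, `I = Bx ρ (2 X)`: by `ftw_dl` and `PETT` the
hypothesis of `CONC` holds with `B = ∑_k K_D(κ_k x)^(1/2^(D-1))`; `B^(2^(2D-1)) ≤ n^(2^(2D-1)) ∑_k K_D(κ_k x)^(2^D)` and
`K ≤ 1`, `2^D ≥ D`; `en_ftw` and `KK_energy` (with `Y = 2 X`).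
-/

open Finset Polynomial

namespace Pool.Agent.HPC

noncomputable section

theorem C7_dirs (D q : ℕ) (hD : 1 ≤ D) (r : Fin q → ℤ) (hP : PETT D q r) (hC : ∀ p ν : ℕ, CONC p ν) :
    ∃ E n C0 : ℕ, 1 ≤ E ∧ ∀ ε : ℝ, 0 < ε → ∃ C : ℝ, 1 ≤ C ∧ ∀ (X M : ℕ) (_ : NeZero M), 1 ≤ X → C0 * X ^ D ≤ M →
    ∃ (J : Type) (_ : Fintype J) (_ : Nonempty J) (δ : J → Fin n → ZMod M → ℝ), (∀ j k, Law (δ j k)) ∧
    (∀ k, av (fun j => en (δ j k)) ≤ C * (X : ℝ) ^ (ε - D)) ∧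
    ∀ (N : ℕ) (R : Fin q → ℤ[X]) (a b : ℤ) (f0 : ZMod M → ℂ) (f : Fin q → ZMod M → ℂ), 1 ≤ N →
      RD D r R → 0 ≤ a → b ≤ X → FN N f0 → (∀ j, FN N (f j)) →
      (‖SP R a b f0 f‖ / (N * X)) ^ E ≤ C * (av (fun j => NN (List.ofFn (δ j)) f0) / N) := by
  sorry

end

end Pool.Agent.HPC
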