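import Pool.Agent.Lib.HPC.C1

/-!
# HPC, module C, chunk C8: Markov's inequality for the energies
-/

open Finset

namespace Pool.Agent.HPC

noncomputable section

/-- If all `en (δ j k) ≤ lam` then `NN ≤ (lam^n GZ n f)^(1/2)` by `NN_sq`; otherwise `NN ≤ N`. -/
theorem C8_markov {M : ℕ} [NeZero M] {J : Type} [Fintype J] [Nonempty J] {n N : ℕ} (δ : J → Fin n → ZMod M → ℝ)
    (hδ : ∀ j k, Law (δ j k)) (f : ZMod M → ℂ) (hf : FN N f) (lam : ℝ) (hl : 0 < lam) :
    av (fun j => NN (List.ofFn (δ j)) f) ≤ N * (∑ k, av (fun j => en (δ j k))) / lam + Real.sqrt (lam ^ n * GZ n f) := by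
  sorry

end

end Pool.Agent.HPC
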