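import Pool.Agent.Lib.HPC.C7
import Pool.Agent.Lib.HPC.C8

/-!
# HPC, module C, chunk C9: Theorem P modulo `M`
-/

open Finset Polynomial

namespace Pool.Agent.HPC

noncomputable section

theorem C9_thmP (D q : ℕ) (hD : 1 ≤ D) (r : Fin q → ℤ) (hP : PETT D q r) (hC : ∀ p ν : ℕ, CONC p ν) : ThmP D q r := by
  sorry

end

end Pool.Agent.HPC
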